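import Pool.Agent.helper55.NK.Spec

set_option autoImplicit false

namespace Pool.Agent.helper8.NK

open Pool.Agent.NK Finset

theorem GEO_step (n s : ℕ) (h : 10 * (s + 1) ≤ n) : n.choose s * 9 ≤ n.choose (s + 1) := by
  have h1 := Nat.choose_succ_right_eq n s
  have h2 : 9 * (s + 1) ≤ n - s := by omega
  have h3 : (n.choose s * 9) * (s + 1) ≤ n.choose (s + 1) * (s + 1) := by
    rw [h1]
    calc (n.choose s * 9) * (s + 1) = n.choose s * (9 * (s + 1)) := by ring
      _ ≤ n.choose s * (n - s) := Nat.mul_le_mul_left _ h2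
  exact Nat.le_of_mul_le_mul_right h3 (Nat.succ_pos s)

theorem GEO : GEO_stmt := by
  intro n s t hst
  induction t, hst using Nat.le_induction with
  | base =>
    intro _
    simp
  | succ t hst ih =>
    intro h
    have h1 := ih (by omega)
    have h2 := GEO_step n t h
    have e : t + 1 - s = (t - s) + 1 := by omega
    rw [e, pow_succ]
    calc n.choose s * (9 ^ (t - s) * 9) = n.choose s * 9 ^ (t - s) * 9 := by ring
      _ ≤ n.choose t * 9 := Nat.mul_le_mul_right _ h1
      _ ≤ n.choose (t + 1) := h2

end Pool.Agent.helper8.NK
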